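import Mathlib

/-!
# Polynomials with two critical values and small fixed-point multipliers
-/

open Finset Polynomial MeasureTheory

namespace Pool.Agent.Results.MP_b61545_an.SmallMultipliers

/-- the antiderivative of `(X (1 - X))^n` vanishing at `0` -/
noncomputable def P0 (n : ℕ) : ℂ[X] :=
  ∑ k ∈ range (n + 1), C ((-1) ^ k * (n.choose k : ℂ) / ((n + k + 1 : ℕ) : ℂ)) * X ^ (n + k + 1)

lemma derivative_P0 (n : ℕ) : derivative (P0 n) = (X * (1 - X)) ^ n := by
  unfold P0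
  rw [derivative_sum, mul_pow, sub_eq_add_neg, add_comm (1 : ℂ[X]), add_pow, mul_sum]
  refine sum_congr rfl fun k hk => ?_
  rw [derivative_C_mul_X_pow, Nat.add_sub_cancel]
  have hne : ((n + k + 1 : ℕ) : ℂ) ≠ 0 := Nat.cast_ne_zero.2 (by omega)
  rw [div_mul_cancel₀ _ hne, one_pow, mul_one, C_mul, C_pow, C_neg, C_1, pow_add,
    neg_pow (X : ℂ[X]) k]
  have e : C ((n.choose k : ℕ) : ℂ) = ((n.choose k : ℕ) : ℂ[X]) := map_natCast C _
  rw [e]
  ring

lemma eval_P0_zero (n : ℕ) : (P0 n).eval 0 = 0 := by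
  simp [P0, eval_finsetSum]

lemma hasDerivAt_P0 (n : ℕ) (z : ℂ) :
    HasDerivAt (fun z => (P0 n).eval z) ((z * (1 - z)) ^ n) z := by
  have := (P0 n).hasDerivAt z
  rw [derivative_P0] at this
  simpa using this

/-- the segment from `1` to `u²` -/
noncomputable def w (u s : ℂ) : ℂ := (1 - s) + s * u ^ 2

/-- its principal square root -/
noncomputable def r (u s : ℂ) : ℂ := Complex.exp (Complex.log (w u s) / 2)

lemma w_mem (u : ℂ) (hu : 0 < u.re) (s : ℝ) (hs0 : 0 ≤ s) (hs1 : s ≤ 1) :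
    w u s ∈ Complex.slitPlane := by
  rw [Complex.mem_slitPlane_iff]
  have hre : (w u s).re = (1 - s) + s * (u.re ^ 2 - u.im ^ 2) := by
    simp [w, pow_two]
  have him : (w u s).im = s * (2 * u.re * u.im) := by
    simp only [w, pow_two, Complex.add_im, Complex.sub_im, Complex.mul_im, Complex.ofReal_re,
      Complex.ofReal_im, Complex.one_im]
    ring
  by_cases h : (w u s).im = 0
  · left
    rw [him] at h
    rw [hre]
    rcases mul_eq_zero.1 h with h1 | h1
    · rw [h1]; norm_num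
    · have h2 : u.im = 0 := by
        rcases mul_eq_zero.1 h1 with h3 | h3
        · linarith
        · exact h3
      rw [h2]
      have : 0 < u.re ^ 2 := by positivity
      rcases eq_or_lt_of_le hs0 with h3 | h3
      · rw [← h3]; norm_num
      · nlinarith
  · exact Or.inr h

lemma r_sq (u s : ℂ) (h : w u s ≠ 0) : r u s ^ 2 = w u s := by
  rw [r, ← Complex.exp_nat_mul]
  rw [show ((2 : ℕ) : ℂ) * (Complex.log (w u s) / 2) = Complex.log (w u s) by push_cast; ring]
  exact Complex.exp_log h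

lemma r_re (u s : ℂ) (h : w u s ∈ Complex.slitPlane) : 0 < (r u s).re := by
  rw [r, Complex.exp_re]
  refine mul_pos (Real.exp_pos _) (Real.cos_pos_of_mem_Ioo ?_)
  have h1 : (Complex.log (w u s) / 2).im = Complex.arg (w u s) / 2 := by
    rw [← Complex.log_im]
    simp
  rw [h1]
  have h2 := Complex.mem_slitPlane_iff_arg.1 h
  have h3 := Complex.arg_le_pi (w u s)
  have h4 := Complex.neg_pi_lt_arg (w u s)
  have h5 : Complex.arg (w u s) < Real.pi := lt_of_le_of_ne h3 h2.1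
  constructor <;> linarith

lemma eq_of_sq (a b : ℂ) (ha : 0 < a.re) (hb : 0 < b.re) (h : a ^ 2 = b ^ 2) : a = b := by
  rcases sq_eq_sq_iff_eq_or_eq_neg.1 h with h1 | h1
  · exact h1
  · rw [h1, Complex.neg_re] at ha
    linarith

lemma hasDerivAt_r (u s : ℂ) (h : w u s ∈ Complex.slitPlane) :
    HasDerivAt (fun s => r u s) ((u ^ 2 - 1) / (2 * r u s)) s := by
  have h1 : HasDerivAt (fun s => w u s) (u ^ 2 - 1) s := by
    have := ((hasDerivAt_id s).const_sub 1).add ((hasDerivAt_id s).mul_const (u ^ 2))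
    refine this.congr_deriv ?_
    ring
  have h2 := (h1.clog h).div_const 2
  have h3 := h2.cexp
  refine h3.congr_deriv ?_
  have h4 := r_sq u s (Complex.slitPlane_ne_zero h)
  have h5 : r u s ≠ 0 := Complex.exp_ne_zero _
  change r u s * ((u ^ 2 - 1) / w u s / 2) = _
  rw [← h4]
  field_simp

/-- the integral representation of `P0` in the half-plane `Re z < 1/2` -/
lemma P0_eq (n : ℕ) (u : ℂ) (hu : 0 < u.re) :
    (P0 n).eval ((1 - u) / 2) = ((1 - u ^ 2) / 4) ^ (n + 1) *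
      ∫ s in (0 : ℝ)..1, (s : ℂ) ^ n / r u s := by
  have hcont : ContinuousOn (fun s : ℝ => (s : ℂ) ^ n / r u s) (Set.uIcc 0 1) := by
    rw [Set.uIcc_of_le zero_le_one]
    intro s hs
    have h1 := (hasDerivAt_r u s (w_mem u hu s hs.1 hs.2)).continuousAt
    have h2 : ContinuousAt (fun s : ℝ => r u s) s :=
      ContinuousAt.comp (f := fun s : ℝ => (s : ℂ)) h1 Complex.continuous_ofReal.continuousAt
    refine ContinuousAt.continuousWithinAt ?_
    exact (Complex.continuous_ofReal.continuousAt.pow n).div h2 (Complex.exp_ne_zero _)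
  have hd : ∀ s ∈ Set.uIcc (0 : ℝ) 1, HasDerivAt (fun s : ℝ => (P0 n).eval ((1 - r u s) / 2))
      (((1 - u ^ 2) / 4) ^ (n + 1) * ((s : ℂ) ^ n / r u s)) s := by
    intro s hs
    rw [Set.uIcc_of_le zero_le_one] at hs
    have hw := w_mem u hu s hs.1 hs.2
    have h1 := ((hasDerivAt_r u s hw).const_sub 1).div_const 2
    have h2 := HasDerivAt.comp (h₂ := fun z => (P0 n).eval z) (s : ℂ) (hasDerivAt_P0 n _) h1
    have h3 := h2.comp_ofReal
    refine h3.congr_deriv ?_
    have h4 := r_sq u s (Complex.slitPlane_ne_zero hw)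
    have h5 : r u s ≠ 0 := Complex.exp_ne_zero _
    have h6 : (1 - r u s) / 2 * (1 - (1 - r u s) / 2) = s * ((1 - u ^ 2) / 4) := by
      have : (1 - r u s) / 2 * (1 - (1 - r u s) / 2) = (1 - r u s ^ 2) / 4 := by ring
      rw [this, h4, w]
      ring
    rw [h6, mul_pow]
    field_simp
    ring
  have hint : IntervalIntegrable (fun s : ℝ => ((1 - u ^ 2) / 4) ^ (n + 1) *
      ((s : ℂ) ^ n / r u s)) volume 0 1 := (continuousOn_const.mul hcont).intervalIntegrable
  have hftc := intervalIntegral.integral_eq_sub_of_hasDerivAt hd hint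
  rw [intervalIntegral.integral_const_mul] at hftc
  have e1 : r u ((1 : ℝ) : ℂ) = u := by
    have hw := w_mem u hu 1 zero_le_one le_rfl
    refine eq_of_sq _ _ (r_re _ _ hw) hu ?_
    rw [r_sq _ _ (Complex.slitPlane_ne_zero hw), w]
    push_cast
    ring
  have e0 : r u ((0 : ℝ) : ℂ) = 1 := by
    have hw := w_mem u hu 0 le_rfl zero_le_one
    refine eq_of_sq _ _ (r_re _ _ hw) (by simp) ?_
    rw [r_sq _ _ (Complex.slitPlane_ne_zero hw), w]
    push_cast
    ring
  rw [hftc, e1, e0]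
  simp [eval_P0_zero]

/-- the tangent line bound for `y ↦ 1/√y` -/
lemma tangent (y y0 : ℝ) (hy : 0 < y) (hy0 : 0 < y0) :
    (1 / Real.sqrt y0) * (3 / 2 - y / (2 * y0)) ≤ 1 / Real.sqrt y := by
  set a := Real.sqrt y with ha
  set b := Real.sqrt y0 with hb
  have ha0 : 0 < a := Real.sqrt_pos.2 hy
  have hb0 : 0 < b := Real.sqrt_pos.2 hy0
  have hya : y = a ^ 2 := (Real.sq_sqrt hy.le).symm
  have hyb : y0 = b ^ 2 := (Real.sq_sqrt hy0.le).symm
  rw [hya, hyb]
  rw [div_mul_eq_mul_div, one_mul, div_le_div_iff₀ hb0 ha0]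
  have h1 : (3 / 2 - a ^ 2 / (2 * b ^ 2)) * a = (3 * a * b ^ 2 - a ^ 3) / (2 * b ^ 2) := by
    field_simp
  rw [h1, div_le_iff₀ (by positivity)]
  nlinarith [mul_nonneg (sq_nonneg (a - b)) (by positivity : 0 ≤ a + 2 * b)]

/-- lower bound for the integral -/
lemma integral_lower (n : ℕ) (u : ℂ) (hu : 0 < u.re) :
    1 / (Real.sqrt 2 * ((n : ℝ) + 1) * Real.sqrt ((1 + (n + 1) * ‖u‖ ^ 2) / (n + 2))) ≤
      ‖∫ s in (0 : ℝ)..1, (s : ℂ) ^ n / r u s‖ := by
  set y0 : ℝ := (1 + (n + 1) * ‖u‖ ^ 2) / (n + 2) with hy0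
  have hy0pos : 0 < y0 := by positivity
  -- the sign of the imaginary part
  obtain ⟨κ, hκ, hκu⟩ : ∃ κ : ℝ, κ ^ 2 = 1 ∧ 0 ≤ κ * u.im := by
    rcases le_total 0 u.im with h | h
    · exact ⟨1, by norm_num, by linarith⟩
    · exact ⟨-1, by norm_num, by linarith⟩
  have hcont : ContinuousOn (fun s : ℝ => (s : ℂ) ^ n / r u s) (Set.uIcc 0 1) := by
    rw [Set.uIcc_of_le zero_le_one]
    intro s hs
    have h1 := (hasDerivAt_r u s (w_mem u hu s hs.1 hs.2)).continuousAt
    have h2 : ContinuousAt (fun s : ℝ => r u s) s :=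
      ContinuousAt.comp (f := fun s : ℝ => (s : ℂ)) h1 Complex.continuous_ofReal.continuousAt
    refine ContinuousAt.continuousWithinAt ?_
    exact (Complex.continuous_ofReal.continuousAt.pow n).div h2 (Complex.exp_ne_zero _)
  have hint := hcont.intervalIntegrable (μ := volume)
  -- pointwise bound
  have hpt : ∀ s ∈ Set.Icc (0 : ℝ) 1, s ^ n * ((1 / Real.sqrt y0) *
      (3 / 2 - ((1 - s) + s * ‖u‖ ^ 2) / (2 * y0))) ≤
      ((s : ℂ) ^ n / r u s).re - κ * ((s : ℂ) ^ n / r u s).im := by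
    intro s hs
    have hw := w_mem u hu s hs.1 hs.2
    have hr0 : r u s ≠ 0 := Complex.exp_ne_zero _
    have hrre := r_re u s hw
    have hrsq := r_sq u s (Complex.slitPlane_ne_zero hw)
    have hrim : 0 ≤ κ * (r u s).im := by
      have h1 := congrArg Complex.im hrsq
      have h2 : (r u s ^ 2).im = 2 * (r u s).re * (r u s).im := by
        rw [pow_two, Complex.mul_im]; ring
      have him : (w u s).im = s * (2 * u.re * u.im) := by
        simp only [w, pow_two, Complex.add_im, Complex.sub_im, Complex.mul_im, Complex.ofReal_re,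
          Complex.ofReal_im, Complex.one_im]
        ring
      rw [h2, him] at h1
      have h3 : (2 * (r u s).re) * (κ * (r u s).im) = s * (2 * u.re) * (κ * u.im) := by
        linear_combination κ * h1
      have h4 : 0 ≤ s * (2 * u.re) * (κ * u.im) :=
        mul_nonneg (mul_nonneg hs.1 (by linarith)) hκu
      rw [← h3] at h4
      exact (mul_nonneg_iff_of_pos_left (by linarith)).1 h4
    have hnorm : ‖r u s‖ ^ 2 = (r u s).re ^ 2 + (r u s).im ^ 2 := by
      rw [← Complex.normSq_eq_norm_sq, Complex.normSq_apply]; ring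
    have hnpos : 0 < ‖r u s‖ := norm_pos_iff.2 hr0
    have hle : ‖r u s‖ ≤ (r u s).re + κ * (r u s).im := by
      refine (sq_le_sq₀ (norm_nonneg _) (by linarith)).1 ?_
      rw [hnorm]
      nlinarith [mul_nonneg hrre.le hrim]
    have hy : ‖r u s‖ ^ 2 ≤ (1 - s) + s * ‖u‖ ^ 2 := by
      rw [← norm_pow, hrsq, w]
      refine (norm_add_le _ _).trans ?_
      rw [norm_mul, norm_pow, Complex.norm_real, Real.norm_eq_abs, abs_of_nonneg hs.1]
      have : ‖(1 : ℂ) - (s : ℂ)‖ = 1 - s := by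
        rw [← Complex.ofReal_one, ← Complex.ofReal_sub, Complex.norm_real, Real.norm_eq_abs,
          abs_of_nonneg (by linarith [hs.2])]
      rw [this]
    have hypos : 0 < (1 - s) + s * ‖u‖ ^ 2 := lt_of_lt_of_le (by positivity) hy
    have h1 : (1 / Real.sqrt y0) * (3 / 2 - ((1 - s) + s * ‖u‖ ^ 2) / (2 * y0)) ≤ 1 / ‖r u s‖ := by
      refine (tangent _ y0 hypos hy0pos).trans ?_
      apply one_div_le_one_div_of_le hnpos
      rw [← Real.sqrt_sq hnpos.le]
      exact Real.sqrt_le_sqrt hy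
    have h2 : ((s : ℂ) ^ n / r u s).re - κ * ((s : ℂ) ^ n / r u s).im =
        s ^ n * (((r u s).re + κ * (r u s).im) / ‖r u s‖ ^ 2) := by
      have e1 : (s : ℂ) ^ n / r u s = ((s ^ n : ℝ) : ℂ) * (r u s)⁻¹ := by
        push_cast; rw [div_eq_mul_inv]
      rw [e1, Complex.re_ofReal_mul, Complex.im_ofReal_mul, Complex.inv_re, Complex.inv_im,
        Complex.normSq_eq_norm_sq]
      field_simp
      ring
    rw [h2]
    refine mul_le_mul_of_nonneg_left (h1.trans ?_) (pow_nonneg hs.1 n)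
    rw [div_le_div_iff₀ hnpos (by positivity)]
    nlinarith
  set J := ∫ s in (0 : ℝ)..1, (s : ℂ) ^ n / r u s with hJ
  have hJre : J.re = ∫ s in (0 : ℝ)..1, ((s : ℂ) ^ n / r u s).re := by
    have := Complex.reCLM.intervalIntegral_comp_comm hint
    simpa using this.symm
  have hJim : J.im = ∫ s in (0 : ℝ)..1, ((s : ℂ) ^ n / r u s).im := by
    have := Complex.imCLM.intervalIntegral_comp_comm hint
    simpa using this.symm
  have hcre : ContinuousOn (fun s : ℝ => ((s : ℂ) ^ n / r u s).re) (Set.uIcc 0 1) :=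
    Complex.continuous_re.comp_continuousOn hcont
  have hcim : ContinuousOn (fun s : ℝ => ((s : ℂ) ^ n / r u s).im) (Set.uIcc 0 1) :=
    Complex.continuous_im.comp_continuousOn hcont
  have hlow : 1 / (((n : ℝ) + 1) * Real.sqrt y0) ≤ J.re - κ * J.im := by
    have e1 : J.re - κ * J.im = ∫ s in (0 : ℝ)..1,
        (((s : ℂ) ^ n / r u s).re - κ * ((s : ℂ) ^ n / r u s).im) := by
      have hck : ContinuousOn (fun s : ℝ => κ * ((s : ℂ) ^ n / r u s).im) (Set.uIcc 0 1) :=
        continuousOn_const.mul hcim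
      rw [hJre, hJim, ← intervalIntegral.integral_const_mul]
      exact (intervalIntegral.integral_sub hcre.intervalIntegrable hck.intervalIntegrable).symm
    have e2 : 1 / (((n : ℝ) + 1) * Real.sqrt y0) = ∫ s in (0 : ℝ)..1,
        s ^ n * ((1 / Real.sqrt y0) * (3 / 2 - ((1 - s) + s * ‖u‖ ^ 2) / (2 * y0))) := by
      have e3 : ∀ s : ℝ, s ^ n * ((1 / Real.sqrt y0) *
          (3 / 2 - ((1 - s) + s * ‖u‖ ^ 2) / (2 * y0))) =
          (1 / Real.sqrt y0) * (3 / 2 - 1 / (2 * y0)) * s ^ n -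
          (1 / Real.sqrt y0) * ((‖u‖ ^ 2 - 1) / (2 * y0)) * s ^ (n + 1) := by
        intro s
        ring
      simp only [e3]
      have i1 : IntervalIntegrable (fun s : ℝ => (1 / Real.sqrt y0) * (3 / 2 - 1 / (2 * y0)) *
          s ^ n) volume 0 1 := (by fun_prop : Continuous _).intervalIntegrable _ _
      have i2 : IntervalIntegrable (fun s : ℝ => (1 / Real.sqrt y0) *
          ((‖u‖ ^ 2 - 1) / (2 * y0)) * s ^ (n + 1)) volume 0 1 :=
        (by fun_prop : Continuous _).intervalIntegrable _ _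
      rw [intervalIntegral.integral_sub i1 i2,
        intervalIntegral.integral_const_mul, intervalIntegral.integral_const_mul, integral_pow,
        integral_pow]
      have hs0 : Real.sqrt y0 ≠ 0 := (Real.sqrt_pos.2 hy0pos).ne'
      have hy1 : y0 * (n + 2) = 1 + (n + 1) * ‖u‖ ^ 2 := by
        rw [hy0]; field_simp
      have hm : ‖u‖ ^ 2 = (y0 * (n + 2) - 1) / (n + 1) := by
        rw [hy1]; field_simp; ring
      rw [hm]
      push_cast
      have hn2 : (n : ℝ) + 1 + 1 ≠ 0 := by positivity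
      field_simp
      ring
    rw [e1, e2]
    refine intervalIntegral.integral_mono_on zero_le_one ?_ ?_ hpt
    · exact (by fun_prop : Continuous fun s : ℝ => s ^ n * ((1 / Real.sqrt y0) *
        (3 / 2 - ((1 - s) + s * ‖u‖ ^ 2) / (2 * y0)))).intervalIntegrable _ _
    · exact (hcre.sub (continuousOn_const.mul hcim)).intervalIntegrable
  have hup : J.re - κ * J.im ≤ Real.sqrt 2 * ‖J‖ := by
    have h1 : (J.re - κ * J.im) ^ 2 ≤ (Real.sqrt 2 * ‖J‖) ^ 2 := by
      rw [mul_pow, Real.sq_sqrt zero_le_two, ← Complex.normSq_eq_norm_sq, Complex.normSq_apply]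
      nlinarith [sq_nonneg (κ * J.re + J.im)]
    exact (abs_le_of_sq_le_sq' h1 (by positivity)).2
  have h2 : 0 < Real.sqrt 2 := by positivity
  calc _ = (1 / (((n : ℝ) + 1) * Real.sqrt y0)) / Real.sqrt 2 := by
        field_simp
    _ ≤ (Real.sqrt 2 * ‖J‖) / Real.sqrt 2 := by
        gcongr
        exact hlow.trans hup
    _ = ‖J‖ := by field_simp

lemma ineq_open (n : ℕ) (z : ℂ) (hz : z.re < 1 / 2) : ‖z * (1 - z)‖ ^ (n + 1) ≤
    Real.sqrt 2 * ((n : ℝ) + 1) * Real.sqrt ((1 + (n + 1) * ‖1 - 2 * z‖ ^ 2) / (n + 2)) *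
      ‖(P0 n).eval z‖ := by
  have hu : 0 < (1 - 2 * z).re := by
    simp only [Complex.sub_re, Complex.one_re, Complex.mul_re, Complex.re_ofNat,
      Complex.im_ofNat, zero_mul, sub_zero]
    linarith
  have h1 := P0_eq n (1 - 2 * z) hu
  have e1 : (1 - (1 - 2 * z)) / 2 = z := by ring
  have e2 : (1 - (1 - 2 * z) ^ 2) / 4 = z * (1 - z) := by ring
  rw [e1, e2] at h1
  have h2 := integral_lower n (1 - 2 * z) hu
  set y := Real.sqrt 2 * ((n : ℝ) + 1) *
    Real.sqrt ((1 + (n + 1) * ‖1 - 2 * z‖ ^ 2) / (n + 2)) with hy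
  have hypos : 0 < y := by positivity
  rw [h1, norm_mul ((z * (1 - z)) ^ (n + 1)), norm_pow]
  rw [div_le_iff₀ hypos] at h2
  have h3 : 0 ≤ ‖z * (1 - z)‖ ^ (n + 1) := by positivity
  nlinarith [mul_le_mul_of_nonneg_left h2 h3]

lemma ineq (n : ℕ) (z : ℂ) (hz : z.re ≤ 1 / 2) : ‖z * (1 - z)‖ ^ (n + 1) ≤
    Real.sqrt 2 * ((n : ℝ) + 1) * Real.sqrt ((1 + (n + 1) * ‖1 - 2 * z‖ ^ 2) / (n + 2)) *
      ‖(P0 n).eval z‖ := by
  have hcl : IsClosed {z : ℂ | ‖z * (1 - z)‖ ^ (n + 1) ≤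
      Real.sqrt 2 * ((n : ℝ) + 1) * Real.sqrt ((1 + (n + 1) * ‖1 - 2 * z‖ ^ 2) / (n + 2)) *
        ‖(P0 n).eval z‖} := by
    refine isClosed_le (by fun_prop) ?_
    exact (continuous_const.mul (Real.continuous_sqrt.comp (by fun_prop))).mul
      (P0 n).continuous.norm
  have h1 : closure {z : ℂ | z.re < 1 / 2} ⊆ _ :=
    closure_minimal (fun z hz => ineq_open n z hz) hcl
  rw [Complex.closure_setOfPred_re_lt] at h1
  exact h1 hz

/-- the Beta integral -/
noncomputable def b (n : ℕ) : ℝ := ∫ t in (0 : ℝ)..1, (t * (1 - t)) ^ n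

lemma eval_P0_one (n : ℕ) : (P0 n).eval 1 = (b n : ℂ) := by
  have hd : ∀ t ∈ Set.uIcc (0 : ℝ) 1, HasDerivAt (fun t : ℝ => (P0 n).eval (t : ℂ))
      (((t * (1 - t)) ^ n : ℝ) : ℂ) t := by
    intro t _
    have := (hasDerivAt_P0 n (t : ℂ)).comp_ofReal
    refine this.congr_deriv ?_
    push_cast
    rfl
  have hc : Continuous fun t : ℝ => (((t * (1 - t)) ^ n : ℝ) : ℂ) :=
    Complex.continuous_ofReal.comp (by fun_prop)
  have h := intervalIntegral.integral_eq_sub_of_hasDerivAt hd (hc.intervalIntegrable _ _)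
  rw [intervalIntegral.integral_ofReal] at h
  simp only [Complex.ofReal_one, Complex.ofReal_zero, eval_P0_zero, sub_zero] at h
  exact h.symm

lemma b_pos (n : ℕ) : 0 < b n := by
  refine intervalIntegral.intervalIntegral_pos_of_pos_on ?_ ?_ one_pos
  · exact (by fun_prop : Continuous fun t : ℝ => (t * (1 - t)) ^ n).intervalIntegrable _ _
  · intro t ht
    exact pow_pos (mul_pos ht.1 (by linarith [ht.2])) n

lemma b_le (n : ℕ) : b n ≤ (1 / 4) ^ n := by
  have h : b n ≤ ∫ _ in (0 : ℝ)..1, ((1 / 4 : ℝ)) ^ n := by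
    refine intervalIntegral.integral_mono_on zero_le_one ?_ ?_ ?_
    · exact (by fun_prop : Continuous fun t : ℝ => (t * (1 - t)) ^ n).intervalIntegrable _ _
    · exact continuous_const.intervalIntegrable _ _
    · intro t ht
      refine pow_le_pow_left₀ (mul_nonneg ht.1 (by linarith [ht.2])) ?_ n
      nlinarith [sq_nonneg (t - 1 / 2)]
  simpa using h

/-- the polynomials with critical values `0` and `1` -/
noncomputable def p (n : ℕ) : ℂ[X] := C (1 / (b n : ℂ)) * P0 n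

lemma b_ne (n : ℕ) : (b n : ℂ) ≠ 0 := by exact_mod_cast (b_pos n).ne'

lemma p_zero (n : ℕ) : (p n).eval 0 = 0 := by simp [p, eval_P0_zero]

lemma p_one (n : ℕ) : (p n).eval 1 = 1 := by
  rw [p, eval_mul, eval_C, eval_P0_one, one_div, inv_mul_cancel₀ (b_ne n)]

lemma derivative_p (n : ℕ) : derivative (p n) = C (1 / (b n : ℂ)) * (X * (1 - X)) ^ n := by
  rw [p, derivative_C_mul, derivative_P0]

lemma p_symm (n : ℕ) (z : ℂ) : (p n).eval (1 - z) = 1 - (p n).eval z := by
  have h : derivative ((p n).comp (1 - X) + p n) = 0 := by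
    rw [derivative_add, derivative_comp, derivative_p]
    simp only [derivative_sub, derivative_one, derivative_X, mul_comp, C_comp, pow_comp, X_comp,
      sub_comp, one_comp]
    ring
  have h1 := derivative_eq_zero.1 h
  have h2 := eq_C_of_natDegree_eq_zero h1
  have h3 : ∀ x, (p n).eval (1 - x) + (p n).eval x = ((p n).comp (1 - X) + p n).coeff 0 := by
    intro x
    have := congrArg (fun q => q.eval x) h2
    simpa [eval_comp] using this
  have h4 := h3 0
  have h5 := h3 z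
  rw [sub_zero, p_one, p_zero, add_zero] at h4
  rw [← h4] at h5
  linear_combination h5

lemma derivative_p_symm (n : ℕ) (z : ℂ) :
    (derivative (p n)).eval (1 - z) = (derivative (p n)).eval z := by
  rw [derivative_p]
  simp only [eval_mul, eval_C, eval_pow, eval_X, eval_sub, eval_one]
  ring

lemma natDegree_deriv (n : ℕ) : (derivative (p n)).natDegree = 2 * n := by
  rw [derivative_p, natDegree_C_mul (one_div_ne_zero (b_ne n)), natDegree_pow]
  have : (X * (1 - X) : ℂ[X]).natDegree = 2 := by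
    have : (X * (1 - X) : ℂ[X]) = -X ^ 2 + X := by ring
    rw [this]
    compute_degree!
  rw [this, mul_comm]

lemma natDegree_p (n : ℕ) (hn : 1 ≤ n) : (p n).natDegree = 2 * n + 1 := by
  have h0 : (p n).natDegree ≠ 0 := by
    intro h0
    have h1 := natDegree_deriv n
    rw [eq_C_of_natDegree_eq_zero h0, derivative_C, natDegree_zero] at h1
    omega
  have h1 : (derivative (p n)).natDegree = (p n).natDegree - 1 :=
    natDegree_eq_of_degree_eq_some (degree_derivative h0)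
  rw [natDegree_deriv] at h1
  omega

/-- the number of critical values -/
noncomputable def cv (q : ℂ[X]) : ℕ :=
  Set.ncard ((fun c => q.eval c) '' {c : ℂ | (derivative q).eval c = 0})

/-- the largest modulus of a multiplier at a fixed point -/
noncomputable def Lam (q : ℂ[X]) : ℝ :=
  sSup ((fun ξ => ‖(derivative q).eval ξ‖) '' {ξ : ℂ | q.eval ξ = ξ})

lemma cv_p (n : ℕ) (hn : 1 ≤ n) : cv (p n) = 2 := by
  have h1 : {c : ℂ | (derivative (p n)).eval c = 0} = {0, 1} := by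
    ext c
    rw [derivative_p]
    simp only [Set.mem_ofPred_eq, eval_mul, eval_C, eval_pow, eval_X, eval_sub, eval_one,
      Set.mem_insert_iff, Set.mem_singleton_iff]
    constructor
    · intro h
      have h2 := (mul_eq_zero.1 h).resolve_left (one_div_ne_zero (b_ne n))
      have h3 := pow_eq_zero_iff (by omega : n ≠ 0) |>.1 h2
      rcases mul_eq_zero.1 h3 with h4 | h4
      · exact Or.inl h4
      · right; linear_combination -h4
    · rintro (rfl | rfl)
      · simp; right; omega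
      · simp; right; omega
  rw [cv, h1, Set.image_pair]
  simp only [p_zero, p_one]
  exact Set.ncard_pair zero_ne_one

/-- the multiplier bound at fixed points in the left half-plane -/
lemma mult_left (n : ℕ) (hn : 100 ≤ n) (hN : 8 * ((n : ℝ) + 1) ^ 2 < ((101 / 100 : ℝ) ^ n) ^ 2)
    (ξ : ℂ) (hξ : (p n).eval ξ = ξ) (hre : ξ.re ≤ 1 / 2) :
    ‖(derivative (p n)).eval ξ‖ ≤ 19 / 20 * (2 * n + 1) := by
  have hn' : (100 : ℝ) ≤ n := by exact_mod_cast hn
  by_cases hξ0 : ξ = 0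
  · subst hξ0
    rw [derivative_p]
    have : n ≠ 0 := by omega
    simp only [eval_mul, eval_C, eval_pow, eval_X, zero_mul, ne_eq, this, not_false_eq_true,
      zero_pow, mul_zero, norm_zero]
    positivity
  have hbpos := b_pos n
  set D := ‖(derivative (p n)).eval ξ‖ with hD
  have hDh : D = ‖ξ * (1 - ξ)‖ ^ n / b n := by
    rw [hD, derivative_p, eval_mul, eval_C, eval_pow, eval_mul, eval_sub, eval_one, eval_X,
      norm_mul, norm_pow, norm_div, norm_one, Complex.norm_real, Real.norm_eq_abs,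
      abs_of_pos hbpos]
    ring
  have hP0 : ‖(P0 n).eval ξ‖ = b n * ‖ξ‖ := by
    have h1 : (P0 n).eval ξ = b n * (p n).eval ξ := by
      rw [p, eval_mul, eval_C]
      field_simp [b_ne n]
    rw [h1, hξ, norm_mul, Complex.norm_real, Real.norm_eq_abs, abs_of_pos hbpos]
  set u : ℂ := 1 - 2 * ξ with hu
  set m : ℝ := ‖u‖ ^ 2 with hm
  set a : ℝ := u.re with ha
  have ha0 : 0 ≤ a := by
    rw [ha, hu]
    simp only [Complex.sub_re, Complex.one_re, Complex.mul_re, Complex.re_ofNat,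
      Complex.im_ofNat, zero_mul, sub_zero]
    linarith
  have hm0 : 0 ≤ m := by positivity
  set y0 : ℝ := (1 + (n + 1) * m) / (n + 2) with hy0
  have hy0pos : 0 < y0 := by positivity
  have hmab : m = u.re ^ 2 + u.im ^ 2 := by
    rw [hm, ← Complex.normSq_eq_norm_sq, Complex.normSq_apply]; ring
  have hξn : 0 < ‖ξ‖ := norm_pos_iff.2 hξ0
  -- the basic inequality
  have hbasic : D * ‖1 - ξ‖ ≤ Real.sqrt 2 * ((n : ℝ) + 1) * Real.sqrt y0 := by
    have h1 := ineq n ξ hre
    rw [hP0, pow_succ, norm_mul ξ (1 - ξ)] at h1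
    have h2 : ‖ξ * (1 - ξ)‖ ^ n = D * b n := by
      rw [hDh]; field_simp
    rw [norm_mul] at h2
    rw [h2] at h1
    have h3 : (D * ‖1 - ξ‖) * (b n * ‖ξ‖) ≤
        (Real.sqrt 2 * ((n : ℝ) + 1) * Real.sqrt y0) * (b n * ‖ξ‖) := by
      calc _ = D * b n * (‖ξ‖ * ‖1 - ξ‖) := by ring
        _ ≤ _ := h1
    exact le_of_mul_le_mul_right h3 (by positivity)
  have hone : ‖1 - ξ‖ ^ 2 = (1 + m + 2 * a) / 4 := by
    have h1 : 1 - ξ = (1 + u) / 2 := by rw [hu]; ring
    rw [h1, norm_div, div_pow, ← Complex.normSq_eq_norm_sq (1 + u), Complex.normSq_apply, hmab]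
    simp only [Complex.add_re, Complex.one_re, Complex.add_im, Complex.one_im, zero_add,
      Complex.norm_ofNat]
    ring
  have hsq : D ^ 2 * (1 + m + 2 * a) ≤ 8 * ((n : ℝ) + 1) ^ 2 * y0 := by
    have h1 : (D * ‖1 - ξ‖) ^ 2 ≤ (Real.sqrt 2 * ((n : ℝ) + 1) * Real.sqrt y0) ^ 2 :=
      pow_le_pow_left₀ (by positivity) hbasic 2
    rw [mul_pow, hone, mul_pow, mul_pow, Real.sq_sqrt zero_le_two, Real.sq_sqrt hy0pos.le] at h1
    linarith
  have hy1 : y0 ≤ 1 + m := by
    rw [hy0, div_le_iff₀ (by positivity)]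
    nlinarith
  have hy2 : y0 ≤ m + 1 / 100 := by
    rw [hy0, div_le_iff₀ (by positivity)]
    nlinarith
  have hD8 : D ^ 2 ≤ 8 * ((n : ℝ) + 1) ^ 2 := by
    have h1 : D ^ 2 * (1 + m) ≤ 8 * ((n : ℝ) + 1) ^ 2 * (1 + m) := by
      calc _ ≤ D ^ 2 * (1 + m + 2 * a) := mul_le_mul_of_nonneg_left (by linarith) (sq_nonneg D)
        _ ≤ 8 * ((n : ℝ) + 1) ^ 2 * y0 := hsq
        _ ≤ _ := by gcongr
    exact le_of_mul_le_mul_right h1 (by positivity)
  -- the lemniscate
  set ρ : ℝ := ‖1 - u ^ 2‖ with hρ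
  have hρn : ρ ^ n ≤ D := by
    have h1 : ρ = 4 * ‖ξ * (1 - ξ)‖ := by
      have : 1 - u ^ 2 = 4 * (ξ * (1 - ξ)) := by rw [hu]; ring
      rw [hρ, this, norm_mul]
      simp
    rw [h1, mul_pow, hDh, le_div_iff₀ hbpos]
    have h2 : (4 : ℝ) ^ n * b n ≤ 1 := by
      calc _ ≤ (4 : ℝ) ^ n * (1 / 4) ^ n := by gcongr; exact b_le n
        _ = 1 := by rw [← mul_pow]; norm_num
    calc _ = (4 ^ n * b n) * ‖ξ * (1 - ξ)‖ ^ n := by ring
      _ ≤ 1 * ‖ξ * (1 - ξ)‖ ^ n := by gcongr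
      _ = _ := one_mul _
  have hρ1 : ρ ≤ 101 / 100 := by
    by_contra hcon
    push Not at hcon
    have h1 : (101 / 100 : ℝ) ^ n ≤ ρ ^ n := pow_le_pow_left₀ (by norm_num) hcon.le n
    have h2 : ((101 / 100 : ℝ) ^ n) ^ 2 ≤ D ^ 2 :=
      pow_le_pow_left₀ (by positivity) (h1.trans hρn) 2
    linarith
  have hρ0 : 0 ≤ ρ := norm_nonneg _
  have hm2 : m ≤ 201 / 100 := by
    have h1 : m = ‖u ^ 2‖ := by rw [norm_pow]
    have h2 : ‖u ^ 2‖ ≤ ‖(1 : ℂ)‖ + ‖1 - u ^ 2‖ := by
      have : u ^ 2 = 1 - (1 - u ^ 2) := by ring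
      calc ‖u ^ 2‖ = ‖1 - (1 - u ^ 2)‖ := by rw [← this]
        _ ≤ _ := norm_sub_le _ _
    rw [norm_one] at h2
    rw [h1]
    linarith
  have ha4 : 2 * m + m ^ 2 - 201 / 10000 ≤ (2 * a) ^ 2 := by
    have h1 : ρ ^ 2 = 1 - 2 * (u.re ^ 2 - u.im ^ 2) + m ^ 2 := by
      rw [hρ, ← Complex.normSq_eq_norm_sq, Complex.normSq_apply, hmab]
      simp only [pow_two, Complex.sub_re, Complex.sub_im, Complex.one_re, Complex.one_im,
        Complex.mul_re, Complex.mul_im]
      ring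
    have h2 : ρ ^ 2 ≤ (101 / 100) ^ 2 := pow_le_pow_left₀ hρ0 hρ1 2
    nlinarith
  -- conclusion
  have key : 808 / 100 * (m + 1 / 100) ≤ 361 / 100 * (1 + m + 2 * a) := by
    by_cases hms : m ≤ 3 / 10
    · nlinarith
    · push Not at hms
      have h1 : m ≤ 2 * a := by
        refine (sq_le_sq₀ hm0 (by linarith)).1 ?_
        nlinarith
      nlinarith
  have hfin : D ^ 2 * (1 + m + 2 * a) ≤ (19 / 20 * (2 * n + 1)) ^ 2 * (1 + m + 2 * a) := by
    have h1 : ((n : ℝ) + 1) ^ 2 ≤ 101 / 100 * (n + 1 / 2) ^ 2 := by nlinarith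
    calc _ ≤ 8 * ((n : ℝ) + 1) ^ 2 * y0 := hsq
      _ ≤ 8 * (101 / 100 * (n + 1 / 2) ^ 2) * (m + 1 / 100) := by gcongr
      _ = (n + 1 / 2) ^ 2 * (808 / 100 * (m + 1 / 100)) := by ring
      _ ≤ (n + 1 / 2) ^ 2 * (361 / 100 * (1 + m + 2 * a)) := by gcongr
      _ = _ := by ring
  have h2 := le_of_mul_le_mul_right hfin (by positivity)
  exact (abs_le_of_sq_le_sq' h2 (by positivity)).2

lemma mult_all (n : ℕ) (hn : 100 ≤ n) (hN : 8 * ((n : ℝ) + 1) ^ 2 < ((101 / 100 : ℝ) ^ n) ^ 2)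
    (ξ : ℂ) (hξ : (p n).eval ξ = ξ) :
    ‖(derivative (p n)).eval ξ‖ ≤ 19 / 20 * (2 * n + 1) := by
  rcases le_total ξ.re (1 / 2) with h | h
  · exact mult_left n hn hN ξ hξ h
  · rw [← derivative_p_symm]
    refine mult_left n hn hN (1 - ξ) ?_ ?_
    · rw [p_symm, hξ]
    · simp only [Complex.sub_re, Complex.one_re]
      linarith

lemma eventually_large : ∃ N : ℕ, ∀ n ≥ N,
    8 * ((n : ℝ) + 1) ^ 2 < ((101 / 100 : ℝ) ^ n) ^ 2 := by
  have h := tendsto_pow_const_div_const_pow_of_one_lt 2 (show (1 : ℝ) < (101 / 100) ^ 2 by norm_num)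
  have h2 := (h.eventually (gt_mem_nhds (show (0 : ℝ) < 1 / 32 by norm_num)))
  rw [Filter.eventually_atTop] at h2
  obtain ⟨N, hN⟩ := h2
  refine ⟨max N 1, fun n hn => ?_⟩
  have h3 := hN n (le_trans (le_max_left _ _) hn)
  have h4 : (1 : ℝ) ≤ n := by exact_mod_cast le_trans (le_max_right _ _) hn
  rw [div_lt_iff₀ (by positivity)] at h3
  have e : (((101 / 100 : ℝ)) ^ n) ^ 2 = (((101 / 100 : ℝ)) ^ 2) ^ n := by
    rw [← pow_mul, ← pow_mul, mul_comm]
  rw [e]
  nlinarith

/-- For all large `n` there is a polynomial of degree `2n+1` with exactly two critical values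
whose fixed-point multipliers all have modulus at most `(19/20)(2n+1)`. In particular it is false
that few critical values (compared to the degree) force `Λ(p) ≥ (1 - ε) deg p`. -/
theorem result :
    (∃ N : ℕ, ∀ n ≥ N, ∃ q : ℂ[X], q.natDegree = 2 * n + 1 ∧ cv q = 2 ∧
      Lam q ≤ 19 / 20 * (q.natDegree : ℝ)) ∧
    (∃ ε > 0, ∀ δ > 0, ∃ q : ℂ[X], 2 ≤ q.natDegree ∧ (cv q : ℝ) < δ * (q.natDegree : ℝ) ∧
      Lam q < (1 - ε) * (q.natDegree : ℝ)) := by
  obtain ⟨N, hN⟩ := eventually_large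
  have main : ∀ n ≥ max N 100, (p n).natDegree = 2 * n + 1 ∧ cv (p n) = 2 ∧
      Lam (p n) ≤ 19 / 20 * ((p n).natDegree : ℝ) := by
    intro n hn
    have h1 : N ≤ n := le_trans (le_max_left _ _) hn
    have h2 : 100 ≤ n := le_trans (le_max_right _ _) hn
    have hdeg := natDegree_p n (by omega)
    refine ⟨hdeg, cv_p n (by omega), ?_⟩
    rw [hdeg]
    refine csSup_le ?_ ?_
    · exact ⟨_, 0, p_zero n, rfl⟩
    · rintro _ ⟨ξ, hξ, rfl⟩
      have := mult_all n h2 (hN n h1) ξ hξ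
      push_cast
      exact this
  refine ⟨⟨max N 100, fun n hn => ⟨p n, main n hn⟩⟩, 1 / 25, by norm_num, fun δ hδ => ?_⟩
  obtain ⟨n, hn⟩ := exists_nat_gt (2 / δ)
  have hM := main (max n (max N 100)) (le_max_right _ _)
  obtain ⟨hdeg, hcv, hL⟩ := hM
  set M := max n (max N 100) with hMdef
  have hM100 : 100 ≤ M := le_trans (le_max_right _ _) (le_max_right _ _)
  have hdpos : (0 : ℝ) < (p M).natDegree := by
    rw [hdeg]; positivity
  refine ⟨p M, by omega, ?_, ?_⟩
  · rw [hcv, hdeg]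
    have h1 : (n : ℝ) ≤ M := by exact_mod_cast le_max_left n (max N 100)
    rw [div_lt_iff₀ hδ] at hn
    push_cast
    nlinarith
  · refine lt_of_le_of_lt hL ?_
    nlinarith

end Pool.Agent.Results.MP_b61545_an.SmallMultipliers
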